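import Pool.Agent.Results.MP_75f5df_co.NeverAmenable

/-!
# Flag-transitive groups on tree-like graphs of all cardinalities are not amenable

The tree-like graph `T_{m,n}` is considered for all cardinals `m, n ≥ 2`, finite, countable or
uncountable. Except for `m = n = 2` (the two-way infinite path) no topological group which acts
continuously on it and transitively on its flags (pairs of a vertex and a block through it) is
amenable. In particular the full automorphism group is not amenable.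
-/

namespace Pool.Agent.Results.MP_75f5df_co.FlagTransitiveGroups

open MeasureTheory Cardinal
open Pool.Agent.Results.MP_75f5df_co.NeverAmenable

/-- `G` is the tree-like graph `T_{m,n}` (any cardinals `m`, `n`): it is connected, every block is
a complete graph on `n` vertices, and every vertex lies in exactly `m` blocks. -/
def TreeLike {V : Type} (G : SimpleGraph V) (m n : Cardinal.{0}) : Prop :=
  G.Connected ∧
  (∀ S, IsBlock G S → (∀ x ∈ S, ∀ y ∈ S, x ≠ y → G.Adj x y) ∧ #S = n) ∧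
  ∀ v : V, #{S | IsBlock G S ∧ v ∈ S} = m

/-- The homomorphism `φ` into the automorphism group is transitive on flags. -/
def FlagTransitive {V : Type} {G : SimpleGraph V} {Γ : Type} [Group Γ] (φ : Γ →* (G ≃g G)) :
    Prop :=
  ∀ (v v' : V) (b b' : Set V), IsBlock G b → v ∈ b → IsBlock G b' → v' ∈ b' →
    ∃ g : Γ, φ g v = v' ∧ φ g '' b = b'

/-- every nonempty type carries a group structure -/
theorem exists_group (α : Type) [Nonempty α] : ∃ (A : Type) (_ : Group A), Nonempty (α ≃ A) := by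
  obtain ⟨i⟩ := nonempty_commRing α
  exact ⟨Multiplicative α, inferInstance, ⟨Multiplicative.ofAdd⟩⟩

theorem exists_data {V : Type} {G : SimpleGraph V} {m n : Cardinal.{0}} (hm : 2 ≤ m)
    (hG : TreeLike G m n) : Nonempty (Data G) := by
  obtain ⟨w⟩ := hG.1.nonempty
  have hneB : Nonempty {S | IsBlock G S ∧ w ∈ S} := by
    rw [← Cardinal.mk_ne_zero_iff, hG.2.2 w]
    exact (lt_of_lt_of_le (by norm_num) hm).ne'
  obtain ⟨b₀⟩ := hneB
  have hneA : Nonempty b₀.1 := ⟨⟨w, b₀.2.2⟩⟩
  obtain ⟨A, gA, ⟨eA⟩⟩ := exists_group b₀.1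
  have hneB : Nonempty {S | IsBlock G S ∧ w ∈ S} := ⟨b₀⟩
  obtain ⟨B, gB, ⟨eB⟩⟩ := exists_group {S | IsBlock G S ∧ w ∈ S}
  have hA : ∀ b : Set V, IsBlock G b → Nonempty (b ≃ A) := by
    intro b hb
    have h1 : #b = #b₀.1 := by rw [(hG.2.1 b hb).2, (hG.2.1 b₀.1 b₀.2.1).2]
    obtain ⟨e⟩ := Cardinal.eq.1 h1
    exact ⟨e.trans eA⟩
  have hB : ∀ v : V, Nonempty ({b : Set V // IsBlock G b ∧ v ∈ b} ≃ B) := by
    intro v
    have h1 : #{S | IsBlock G S ∧ v ∈ S} = #{S | IsBlock G S ∧ w ∈ S} := by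
      rw [hG.2.2 v, hG.2.2 w]
    obtain ⟨e⟩ := Cardinal.eq.1 h1
    exact ⟨e.trans eB⟩
  exact ⟨{ A := A
           B := B
           cA := fun b hb => (hA b hb).some
           cB := fun v => (hB v).some }⟩

/-- a set with at least `k` elements contains `k` different ones -/
theorem exists_inj {α : Type} (k : ℕ) (h : (k : Cardinal.{0}) ≤ #α) :
    ∃ f : Fin k → α, Function.Injective f := by
  have h1 : #(Fin k) ≤ #α := by rwa [Cardinal.mk_fin]
  obtain ⟨e⟩ := (Cardinal.le_def (Fin k) α).1 h1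
  exact ⟨e, e.injective⟩

/-- `k` disjoint events of the same probability `c` satisfy `k c ≤ 1` -/
theorem mul_le_one {Ω : Type} [MeasurableSpace Ω] (μ : Measure Ω) [IsProbabilityMeasure μ]
    (k : ℕ) (s : Fin k → Set Ω) (hm : ∀ i, MeasurableSet (s i))
    (hd : Pairwise (Function.onFun Disjoint s)) (c : ENNReal) (hc : ∀ i, μ (s i) = c) :
    (k : ENNReal) * c ≤ 1 := by
  have h1 : μ (⋃ i : Fin k, s i) = ∑' i : Fin k, μ (s i) :=
    measure_iUnion hd hm
  have h2 : μ (⋃ i : Fin k, s i) ≤ 1 := prob_le_one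
  rw [h1, tsum_fintype] at h2
  simpa [hc] using h2

section Main

attribute [local instance] flagAction

theorem core {V : Type} {G : SimpleGraph V} {m n : Cardinal.{0}} (hm : 2 ≤ m) (hn : 2 ≤ n)
    (hmn : ¬ (m = 2 ∧ n = 2)) (hG : TreeLike G m n)
    (Γ : Type) [Group Γ] [TopologicalSpace Γ] (φ : Γ →* (G ≃g G))
    (hφ : @Continuous Γ (G ≃g G) _ (autTopology G) φ) (htr : FlagTransitive φ) :
    ¬ IsAmenable Γ := by
  intro hAm
  let _ := autTopology G
  let _ := actXX G
  have hconn : G.Connected := hG.1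
  have hcomp : Comp G := fun S hS => (hG.2.1 S hS).1
  have hS : ∀ f : Flag G, #(f.b) = n := fun f => (hG.2.1 f.b f.hb).2
  have htwo : ∀ f : Flag G, ∃ v' ∈ f.b, v' ≠ f.v := by
    intro f
    by_contra hcon
    push Not at hcon
    have h1 : #(f.b) ≤ 1 := by
      rw [Cardinal.le_one_iff_subsingleton]
      constructor
      rintro ⟨a, ha⟩ ⟨b, hb⟩
      exact Subtype.ext ((hcon a ha).trans (hcon b hb).symm)
    rw [hS f] at h1
    exact absurd (hn.trans h1) (by norm_num)
  obtain ⟨w⟩ := hconn.nonempty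
  have hne : Nonempty (XX G) := nonempty_XX hconn hcomp w
  let _ : MeasurableSpace (XX G) := borel (XX G)
  have _ : BorelSpace (XX G) := ⟨rfl⟩
  have hcs : ContinuousSMul (G ≃g G) (XX G) := continuousSMul_XX hcomp htwo
  let _ : MulAction Γ (XX G) := MulAction.compHom (XX G) φ
  have hsm : ∀ (g : Γ) (o : XX G), g • o = φ g • o := fun _ _ => rfl
  have _ : ContinuousSMul Γ (XX G) := by
    constructor
    have h1 : Continuous fun p : Γ × XX G => (φ p.1, p.2) :=
      (hφ.comp continuous_fst).prodMk continuous_snd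
    exact hcs.continuous_smul.comp h1
  obtain ⟨μ, hμ, hinv⟩ := hAm (XX G)
  -- the basic events
  have hopen : ∀ (t : Bool) (f : Flag G), IsOpen {o : XX G | o.1 f = t} := by
    intro t f
    have : Continuous fun o : XX G => o.1 f := (continuous_apply f).comp continuous_subtype_val
    exact (isOpen_discrete {t}).preimage this
  have hmeas : ∀ (t : Bool) (f : Flag G), MeasurableSet {o : XX G | o.1 f = t} :=
    fun t f => (hopen t f).measurableSet
  have hshift : ∀ (t : Bool) (g : Γ) (f : Flag G),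
      μ {o : XX G | o.1 (φ g • f) = t} = μ {o : XX G | o.1 f = t} := by
    intro t g f
    have h1 : (μ.map (fun x => g • x)) {o : XX G | o.1 (φ g • f) = t} =
        μ ((fun x => g • x) ⁻¹' {o : XX G | o.1 (φ g • f) = t}) :=
      Measure.map_apply (continuous_const_smul g).measurable (hmeas t _)
    rw [hinv g] at h1
    rw [h1]
    congr 1
    ext o
    show o.1 ((φ g)⁻¹ • φ g • f) = t ↔ o.1 f = t
    rw [inv_smul_smul]
  have hall : ∀ (t : Bool) (f f' : Flag G),
      μ {o : XX G | o.1 f = t} = μ {o : XX G | o.1 f' = t} := by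
    intro t f f'
    obtain ⟨g, hg1, hg2⟩ := htr f'.v f.v f'.b f.b f'.hb f'.hv f.hb f.hv
    have hg : φ g • f' = f := NeverAmenable.Flag.ext (by rw [smul_v]; exact hg1) (by rw [smul_b]; exact hg2)
    rw [← hg]
    exact hshift t g f'
  have hneB : Nonempty {S | IsBlock G S ∧ w ∈ S} := by
    rw [← Cardinal.mk_ne_zero_iff, hG.2.2 w]
    exact (lt_of_lt_of_le (by norm_num) hm).ne'
  obtain ⟨b₀⟩ := hneB
  let f0 : Flag G := mkF w b₀.1 b₀.2.1 b₀.2.2
  -- bounds for the two probabilities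
  have hT : ∀ k : ℕ, (k : Cardinal.{0}) ≤ n → (k : ENNReal) * μ {o : XX G | o.1 f0 = true} ≤ 1 := by
    intro k hk
    obtain ⟨e, he⟩ := exists_inj (α := f0.b) k (by rw [hS f0]; exact hk)
    refine mul_le_one μ k (fun i => {o : XX G | o.1 (mkF (e i).1 f0.b f0.hb (e i).2) = true})
      (fun i => hmeas _ _) ?_ _ (fun i => hall true _ f0)
    intro i j hij
    refine Set.disjoint_left.2 fun o ho ho' => ?_
    exact o.2.1 (mkF (e i).1 f0.b f0.hb (e i).2) (mkF (e j).1 f0.b f0.hb (e j).2) rfl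
      (fun h => hij (he (Subtype.ext h))) ⟨ho, ho'⟩
  have hF : ∀ k : ℕ, (k : Cardinal.{0}) ≤ m →
      (k : ENNReal) * μ {o : XX G | o.1 f0 = false} ≤ 1 := by
    intro k hk
    obtain ⟨e, he⟩ := exists_inj (α := {S | IsBlock G S ∧ w ∈ S}) k (by rw [hG.2.2 w]; exact hk)
    refine mul_le_one μ k
      (fun i => {o : XX G | o.1 (mkF w (e i).1 (e i).2.1 (e i).2.2) = false})
      (fun i => hmeas _ _) ?_ _ (fun i => hall false _ f0)
    intro i j hij
    refine Set.disjoint_left.2 fun o ho ho' => ?_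
    exact o.2.2 (mkF w (e i).1 (e i).2.1 (e i).2.2) (mkF w (e j).1 (e j).2.1 (e j).2.2) rfl
      (fun h => hij (he (Subtype.ext h))) ⟨ho, ho'⟩
  have hsum : μ {o : XX G | o.1 f0 = true} + μ {o : XX G | o.1 f0 = false} = 1 := by
    have h1 : {o : XX G | o.1 f0 = false} = {o : XX G | o.1 f0 = true}ᶜ := by
      ext o
      simp
    rw [h1]
    exact prob_add_prob_compl (hmeas true f0)
  have hp : μ {o : XX G | o.1 f0 = true} ≠ ⊤ := measure_ne_top μ _
  have hq : μ {o : XX G | o.1 f0 = false} ≠ ⊤ := measure_ne_top μ _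
  obtain ⟨p, hpe⟩ : ∃ p : NNReal, (p : ENNReal) = μ {o : XX G | o.1 f0 = true} :=
    ⟨_, ENNReal.coe_toNNReal hp⟩
  obtain ⟨q, hqe⟩ : ∃ q : NNReal, (q : ENNReal) = μ {o : XX G | o.1 f0 = false} :=
    ⟨_, ENNReal.coe_toNNReal hq⟩
  rw [← hpe] at hT hsum
  rw [← hqe] at hF hsum
  have hsum' : (p : ℝ) + q = 1 := by exact_mod_cast hsum
  have hT' : ∀ k : ℕ, (k : Cardinal.{0}) ≤ n → (k : ℝ) * p ≤ 1 := by
    intro k hk
    have := hT k hk
    exact_mod_cast this
  have hF' : ∀ k : ℕ, (k : Cardinal.{0}) ≤ m → (k : ℝ) * q ≤ 1 := by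
    intro k hk
    have := hF k hk
    exact_mod_cast this
  have h2p : (2 : ℝ) * p ≤ 1 := by simpa using hT' 2 (by simpa using hn)
  have h2q : (2 : ℝ) * q ≤ 1 := by simpa using hF' 2 (by simpa using hm)
  have hthree : ∀ c : Cardinal.{0}, 2 ≤ c → c ≠ 2 → ((3 : ℕ) : Cardinal.{0}) ≤ c := by
    intro c h2 hne
    have h3 : (2 : Cardinal.{0}) < c := lt_of_le_of_ne h2 (Ne.symm hne)
    have h4 : Order.succ (2 : Cardinal.{0}) ≤ c := Order.succ_le_of_lt h3
    have h5 : ((3 : ℕ) : Cardinal.{0}) = Order.succ (2 : Cardinal.{0}) := by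
      have h6 := Cardinal.succ_natCast 2
      push_cast at h6 ⊢
      rw [h6]
      norm_num
    rw [h5]
    exact h4
  by_cases h : m = 2
  · have hn3 : n ≠ 2 := fun hn2 => hmn ⟨h, hn2⟩
    have h3p : ((3 : ℕ) : ℝ) * p ≤ 1 := hT' 3 (hthree n hn hn3)
    push_cast at h3p
    linarith
  · have h3q : ((3 : ℕ) : ℝ) * q ≤ 1 := hF' 3 (hthree m hm h)
    push_cast at h3q
    linarith

/-- the automorphism group of a tree-like graph is transitive on flags -/
theorem aut_flagTransitive {V : Type} {G : SimpleGraph V} {m n : Cardinal.{0}} (hm : 2 ≤ m)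
    (hG : TreeLike G m n) : FlagTransitive (MonoidHom.id (G ≃g G)) := by
  obtain ⟨D⟩ := exists_data hm hG
  have hconn : G.Connected := hG.1
  have hcomp : Comp G := fun S hS => (hG.2.1 S hS).1
  have hblock : ∀ v : V, ∃ f : Flag G, f.v = v := by
    intro v
    have hneB : Nonempty {S | IsBlock G S ∧ v ∈ S} := by
      rw [← Cardinal.mk_ne_zero_iff, hG.2.2 v]
      exact (lt_of_lt_of_le (by norm_num) hm).ne'
    obtain ⟨b⟩ := hneB
    exact ⟨mkF v b.1 b.2.1 b.2.2, rfl⟩
  intro v v' b b' hb hv hb' hv'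
  obtain ⟨g, hg⟩ := flag_transitive D hconn hcomp hblock (mkF v b hb hv) (mkF v' b' hb' hv')
  refine ⟨g, ?_, ?_⟩
  · have := congrArg Flag.v hg
    exact this
  · have := congrArg Flag.b hg
    exact this

/-- **Flag-transitive groups on tree-like graphs are not amenable.**
(1) Let `m, n ≥ 2` be arbitrary cardinals, finite or infinite, not both equal to `2`, and let `G` be
the tree-like graph `T_{m,n}`. No group `Γ` with a topology and a continuous homomorphism to
`Aut(T_{m,n})` (with the topology of pointwise convergence) whose image is transitive on flags is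
amenable; in particular `Aut(T_{m,n})` itself is not amenable.
(2) In particular `Aut(T_{m,n})` is not amenable for any `m`, `n` with `2 ≤ m, n ≤ ℵ₀` of which at
least one is `ℵ₀`: this is the full answer to the question. -/
theorem result :
    (∀ (V : Type) (G : SimpleGraph V) (m n : Cardinal.{0}), 2 ≤ m → 2 ≤ n → ¬ (m = 2 ∧ n = 2) →
      TreeLike G m n →
      (∀ (Γ : Type) [Group Γ] [TopologicalSpace Γ] (φ : Γ →* (G ≃g G)),
        @Continuous Γ (G ≃g G) _ (autTopology G) φ → FlagTransitive φ → ¬ IsAmenable Γ) ∧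
      ¬ @IsAmenable (G ≃g G) _ (autTopology G)) ∧
    (∀ m n : Cardinal.{0}, 2 ≤ m → m ≤ ℵ₀ → 2 ≤ n → n ≤ ℵ₀ → (m = ℵ₀ ∨ n = ℵ₀) →
      ∀ (V : Type) (G : SimpleGraph V), TreeLike G m n →
        ¬ @IsAmenable (G ≃g G) _ (autTopology G)) := by
  have h1 : ∀ (V : Type) (G : SimpleGraph V) (m n : Cardinal.{0}), 2 ≤ m → 2 ≤ n →
      ¬ (m = 2 ∧ n = 2) → TreeLike G m n → ¬ @IsAmenable (G ≃g G) _ (autTopology G) := by
    intro V G m n hm hn hmn hG
    let _ := autTopology G
    exact core hm hn hmn hG (G ≃g G) (MonoidHom.id _) continuous_id (aut_flagTransitive hm hG)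
  refine ⟨?_, ?_⟩
  · intro V G m n hm hn hmn hG
    refine ⟨?_, h1 V G m n hm hn hmn hG⟩
    intro Γ _ _ φ hφ htr
    exact core hm hn hmn hG Γ φ hφ htr
  · intro m n hm _ hn _ hinf V G hG
    refine h1 V G m n hm hn ?_ hG
    rintro ⟨rfl, rfl⟩
    have h2 : (2 : Cardinal.{0}) < ℵ₀ := by
      have h3 : ((2 : ℕ) : Cardinal.{0}) < ℵ₀ := Cardinal.natCast_lt_aleph0
      exact_mod_cast h3
    rcases hinf with h | h
    · exact h2.ne h
    · exact h2.ne h

end Main

end Pool.Agent.Results.MP_75f5df_co.FlagTransitiveGroups
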